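import Mathlib
import Pool.Agent.H.MP_0b7c94_al.B

set_option autoImplicit false

namespace Pool.Agent.Results.MP_0b7c94_al.NoSimple
open Pool.Agent.H.MP_0b7c94_al Pool.Agent.H.MP_7538d4_al

theorem result :
    ∃ (G : Type) (_ : Group G), Infinite G ∧ IsSimpleGroup G ∧
      (∀ s : Finset G, Finite (Subgroup.closure (s : Set G))) ∧
      (∀ H : Subgroup G, Finite H → IsSimpleGroup H → ∀ a b : H, a * b = b * a) ∧
      ¬ ∃ H : ℕ → Subgroup G, StrictMono H ∧
        ∀ n, Finite (H n) ∧ IsSimpleGroup (H n) ∧ ∃ a b : H n, a * b ≠ b * a := by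
  refine ⟨GG, inferInstance, inferInstance, inferInstance, lim_lf ψ,
    fun H _ _ => no_simple H, ?_⟩
  rintro ⟨H, -, h⟩
  obtain ⟨_, _, a, b, hab⟩ := h 0
  exact hab (no_simple _ a b)

end Pool.Agent.Results.MP_0b7c94_al.NoSimple
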